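import Pool.Agent.W2helper3.BQ.Stm
import Pool.Agent.Y282.RB.K

/-!
# BQ piece FINA: the final assembly
-/

set_option autoImplicit false

open MeasureTheory Set Filter Topology
open scoped SchwartzMap ENNReal ContDiff BigOperators

namespace Pool.Agent.W2helper74.BQ.FINA

open Pool.Agent.W2helper3.BQ
open Pool.Agent.Y282.RB (Tn Cn)
open Pool.Agent.Y282.RB.A2 (db dd Tn_db)
open Pool.Agent.Y282.RB.K (Tn_eq Tn_add adm_sy)
open Pool.Agent.TH55.PowA (T_cont)

theorem cs_DD (ξ : 𝓢(ℝ, ℂ)) (h : HasCompactSupport ξ) : HasCompactSupport (DD ξ) := by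
  have : (⇑(DD ξ) : ℝ → ℂ) = deriv ξ := rfl
  rw [this]
  exact h.deriv

theorem cs_pol (P : Polynomial ℝ) (ζ : 𝓢(ℝ, ℂ)) (hζ : HasCompactSupport ζ) :
    HasCompactSupport (pol P ζ) := by
  induction P using Polynomial.induction_on with
  | C a =>
    have : pol (Polynomial.C a) ζ = a • ζ := by unfold pol; rw [Polynomial.aeval_C]; rfl
    rw [this]
    have e : (⇑(a • ζ) : ℝ → ℂ) = fun x => a • ζ x := rfl
    rw [e]
    exact hζ.smul_left (f := fun _ => a)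
  | add P Q hP hQ =>
    have : pol (P + Q) ζ = pol P ζ + pol Q ζ := by unfold pol; rw [map_add]; rfl
    rw [this]
    exact hP.add hQ
  | monomial n a ih =>
    have : pol (Polynomial.C a * Polynomial.X ^ (n + 1)) ζ =
        DD (pol (Polynomial.C a * Polynomial.X ^ n) ζ) := by
      unfold pol
      rw [pow_succ', mul_left_comm, map_mul, Polynomial.aeval_X, Module.End.mul_apply]
    rw [this]
    exact cs_DD _ ih

/-- the angular average of the `p`-th power of a sum of modes -/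
noncomputable def GG (p : ℝ) (S : Finset ℤ) (c : ℤ → ℂ) (w : ℤ → 𝓢(ℝ, ℂ)) (u : ℝ) : ℝ :=
  av fun t => ‖∑ k ∈ S, Complex.exp (c k * t * Complex.I) * w k u‖ ^ p

theorem GG_cont {p : ℝ} (hp : 0 < p) (S : Finset ℤ) (c : ℤ → ℂ) (w : ℤ → 𝓢(ℝ, ℂ)) :
    Continuous (GG p S c w) := by
  unfold GG av
  refine continuous_const.mul ?_
  apply intervalIntegral.continuous_parametric_intervalIntegral_of_continuous'
  unfold Function.uncurry
  refine Continuous.rpow_const ?_ (fun _ => Or.inr hp.le)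
  refine Continuous.norm ?_
  refine continuous_finsetSum _ fun k _ => ?_
  have := (w k).continuous
  fun_prop

theorem GG_nonneg (p : ℝ) (S : Finset ℤ) (c : ℤ → ℂ) (w : ℤ → 𝓢(ℝ, ℂ)) (u : ℝ) :
    0 ≤ GG p S c w u := by
  unfold GG av
  refine mul_nonneg (by positivity)
    (intervalIntegral.integral_nonneg (by positivity) fun t _ => by positivity)

theorem GG_cs {p : ℝ} (hp : 0 < p) (S : Finset ℤ) (c : ℤ → ℂ) (w : ℤ → 𝓢(ℝ, ℂ))
    (hw : ∀ k, HasCompactSupport (w k)) : HasCompactSupport (GG p S c w) := by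
  refine HasCompactSupport.intro (K := ⋃ k ∈ S, tsupport (w k))
    (S.isCompact_biUnion fun k _ => hw k) fun u hu => ?_
  have : ∀ k ∈ S, w k u = 0 := by
    intro k hk
    by_contra h
    apply hu
    simp only [Set.mem_iUnion]
    exact ⟨k, hk, subset_tsupport _ h⟩
  unfold GG av
  have e : ∀ t : ℝ, ‖∑ k ∈ S, Complex.exp (c k * t * Complex.I) * w k u‖ ^ p = 0 := by
    intro t
    rw [Finset.sum_eq_zero fun k hk => by rw [this k hk, mul_zero], norm_zero,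
      Real.zero_rpow hp.ne']
  simp [e]

theorem GG_int {p : ℝ} (hp : 0 < p) (S : Finset ℤ) (c : ℤ → ℂ) (w : ℤ → 𝓢(ℝ, ℂ))
    (hw : ∀ k, HasCompactSupport (w k)) : Integrable (GG p S c w) :=
  (GG_cont hp S c w).integrable_of_hasCompactSupport (GG_cs hp S c w hw)

theorem norm_eq (hPOL : P_POL) {p : ℝ} (hp : 0 < p) (F : 𝓢(ℂ, ℂ)) :
    eLpNorm F (ENNReal.ofReal p) (volume : Measure ℂ) = (ENNReal.ofReal Real.pi *
      ∫⁻ u : ℝ, ENNReal.ofReal (av fun t => ‖Real.exp (u / p) * F (ex u t)‖ ^ p)) ^ (1 / p) := by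
  have hP0 : ENNReal.ofReal p ≠ 0 := by
    rw [ne_eq, ENNReal.ofReal_eq_zero, not_le]
    exact hp
  have hPt : (ENNReal.ofReal p).toReal = p := ENNReal.toReal_ofReal hp.le
  rw [eLpNorm_eq_lintegral_rpow_enorm_toReal hP0 ENNReal.ofReal_ne_top, hPt,
    hPOL p hp F F.continuous]

theorem rot_norm (a t : ℝ) (z : ℂ) : ‖Complex.exp (a * t * Complex.I) * z‖ = ‖z‖ := by
  rw [norm_mul, ← Complex.ofReal_mul, Complex.norm_exp_ofReal_mul_I, one_mul]

/-- the inequality for `db^[n] h`, `dd^[n] h` -/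
theorem dd_le (hPOL : P_POL) (hGEO : P_GEO) {p : ℝ} (hp : 4 ≤ p) (n N : ℕ)
    (ζ : ℤ → 𝓢(ℝ, ℂ)) (hζ : ∀ k, HasCompactSupport (ζ k)) (h : 𝓢(ℂ, ℂ))
    (hh : ∀ u t : ℝ, h (ex u t) = Real.exp (u * (n / 2 - 1 / p)) *
      ∑ k ∈ Finset.Icc (-(N : ℤ)) N, Complex.exp (((k : ℝ) - n) * t * Complex.I) * ζ k u)
    (hMO : ∫ u, (av fun t => ‖∑ k ∈ Finset.Icc (-(N : ℤ)) N,
      Complex.exp (((k : ℝ) - 2 * n) * t * Complex.I) * pol (PB p n k) (ζ k) u‖ ^ p) ≤
    (Cn p n) ^ p * ∫ u, (av fun t => ‖∑ k ∈ Finset.Icc (-(N : ℤ)) N,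
      Complex.exp (((k : ℝ) - 2 * n) * t * Complex.I) * pol (PA p n k) (ζ k) u‖ ^ p)) :
    eLpNorm (dd^[n] h) (ENNReal.ofReal p) (volume : Measure ℂ) ≤
      ENNReal.ofReal (Cn p n) * eLpNorm (db^[n] h) (ENNReal.ofReal p) (volume : Measure ℂ) := by
  have hp0 : 0 < p := by linarith
  have hC : 0 ≤ Cn p n := by
    unfold Cn
    refine Finset.prod_nonneg fun j _ => ?_
    have h1 : 1 / p ≤ 1 := by rw [div_le_iff₀ hp0]; linarith
    have h2 : 0 < 1 / p := by positivity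
    have h3 : (0 : ℝ) ≤ j := Nat.cast_nonneg j
    exact div_nonneg (by linarith) (by linarith)
  set c : ℤ → ℂ := fun k => ((k : ℝ) : ℂ) - 2 * n with hc
  have hA : ∀ k, HasCompactSupport (pol (PA p n k) (ζ k)) := fun k => cs_pol _ _ (hζ k)
  have hB : ∀ k, HasCompactSupport (pol (PB p n k) (ζ k)) := fun k => cs_pol _ _ (hζ k)
  have eA : ∀ u : ℝ, (av fun t => ‖Real.exp (u / p) * (db^[n] h) (ex u t)‖ ^ p) =
      GG p (Finset.Icc (-(N : ℤ)) N) c (fun k => pol (PA p n k) (ζ k)) u := by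
    intro u
    unfold GG
    congr 1
    funext t
    rw [(hGEO n N p hp0 h ζ hh u t).1]
    have r : ∀ z : ℂ, ‖Complex.exp (2 * n * t * Complex.I) * z‖ = ‖z‖ := by
      intro z
      have := rot_norm (2 * n) t z
      push_cast at this
      exact this
    rw [r]
  have eB : ∀ u : ℝ, (av fun t => ‖Real.exp (u / p) * (dd^[n] h) (ex u t)‖ ^ p) =
      GG p (Finset.Icc (-(N : ℤ)) N) c (fun k => pol (PB p n k) (ζ k)) u := by
    intro u
    unfold GG
    congr 1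
    funext t
    rw [(hGEO n N p hp0 h ζ hh u t).2]
  have hMO' : ∫ u, GG p (Finset.Icc (-(N : ℤ)) N) c (fun k => pol (PB p n k) (ζ k)) u ≤
      (Cn p n) ^ p * ∫ u, GG p (Finset.Icc (-(N : ℤ)) N) c (fun k => pol (PA p n k) (ζ k)) u := hMO
  rw [norm_eq hPOL hp0, norm_eq hPOL hp0]
  simp only [eA, eB]
  rw [← ofReal_integral_eq_lintegral_ofReal (GG_int hp0 _ c _ hA)
      (Eventually.of_forall fun u => GG_nonneg _ _ _ _ u),
    ← ofReal_integral_eq_lintegral_ofReal (GG_int hp0 _ c _ hB)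
      (Eventually.of_forall fun u => GG_nonneg _ _ _ _ u)]
  have e1 : ENNReal.ofReal (Cn p n) = (ENNReal.ofReal (Cn p n) ^ p) ^ (1 / p) := by
    rw [← ENNReal.rpow_mul, mul_one_div_cancel hp0.ne', ENNReal.rpow_one]
  rw [e1, ← ENNReal.mul_rpow_of_nonneg _ _ (by positivity)]
  apply ENNReal.rpow_le_rpow _ (by positivity)
  rw [mul_left_comm]
  gcongr
  rw [ENNReal.ofReal_rpow_of_nonneg hC hp0.le, ← ENNReal.ofReal_mul (by positivity)]
  exact ENNReal.ofReal_le_ofReal hMO'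

/-- the norm of a function whose modes are small -/
theorem small (hPOL : P_POL) {p : ℝ} (hp : 4 ≤ p) (S : Finset ℤ) (F : 𝓢(ℂ, ℂ)) (c : ℤ → ℝ)
    (δ : ℤ → ℝ → ℂ) (hδ : ∀ k, Continuous (δ k)) (e : ℝ≥0∞)
    (hF : ∀ u t : ℝ, Real.exp (u / p) * F (ex u t) =
      ∑ k ∈ S, Complex.exp (c k * t * Complex.I) * δ k u)
    (hs : ∀ k ∈ S, eLpNorm (δ k) (ENNReal.ofReal p) volume ≤ e) :
    eLpNorm F (ENNReal.ofReal p) (volume : Measure ℂ) ≤
      (ENNReal.ofReal Real.pi) ^ (1 / p) * (S.card * e) := by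
  have hp0 : 0 < p := by linarith
  have hP0 : ENNReal.ofReal p ≠ 0 := by
    rw [ne_eq, ENNReal.ofReal_eq_zero, not_le]
    exact hp0
  have hPt : (ENNReal.ofReal p).toReal = p := ENNReal.toReal_ofReal hp0.le
  have hP1 : (1 : ℝ≥0∞) ≤ ENNReal.ofReal p := by
    rw [← ENNReal.ofReal_one]
    exact ENNReal.ofReal_le_ofReal (by linarith)
  rw [norm_eq hPOL hp0, ENNReal.mul_rpow_of_nonneg _ _ (by positivity)]
  gcongr
  -- bound the angular average
  set D : ℝ → ℝ := fun u => ∑ k ∈ S, ‖δ k u‖ with hD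
  have hDc : Continuous D := continuous_finsetSum _ fun k _ => (hδ k).norm
  have hD0 : ∀ u, 0 ≤ D u := fun u => Finset.sum_nonneg fun k _ => norm_nonneg _
  have h1 : ∀ u : ℝ, (av fun t => ‖Real.exp (u / p) * F (ex u t)‖ ^ p) ≤ D u ^ p := by
    intro u
    unfold av
    have h2 : ∫ t in (0 : ℝ)..(2 * Real.pi), ‖Real.exp (u / p) * F (ex u t)‖ ^ p ≤
        ∫ t in (0 : ℝ)..(2 * Real.pi), D u ^ p := by
      apply intervalIntegral.integral_mono_on (by positivity)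
      · apply Continuous.intervalIntegrable
        refine Continuous.rpow_const ?_ (fun _ => Or.inr hp0.le)
        have := F.continuous
        unfold ex
        fun_prop
      · exact intervalIntegrable_const
      · intro t _
        apply Real.rpow_le_rpow (norm_nonneg _) _ hp0.le
        rw [hF]
        refine (norm_sum_le _ _).trans ?_
        apply Finset.sum_le_sum
        intro k _
        rw [rot_norm]
    rw [intervalIntegral.integral_const, sub_zero, smul_eq_mul] at h2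
    calc _ ≤ 1 / (2 * Real.pi) * (2 * Real.pi * D u ^ p) := by gcongr
      _ = D u ^ p := by field_simp
  calc (∫⁻ u : ℝ, ENNReal.ofReal (av fun t => ‖Real.exp (u / p) * F (ex u t)‖ ^ p)) ^ (1 / p)
      ≤ (∫⁻ u : ℝ, ‖D u‖ₑ ^ p) ^ (1 / p) := by
        apply ENNReal.rpow_le_rpow _ (by positivity)
        apply lintegral_mono
        intro u
        refine (ENNReal.ofReal_le_ofReal (h1 u)).trans (le_of_eq ?_)
        show ENNReal.ofReal (D u ^ p) = ‖D u‖ₑ ^ p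
        rw [← ENNReal.ofReal_rpow_of_nonneg (hD0 u) hp0.le, Real.enorm_of_nonneg (hD0 u)]
    _ = eLpNorm D (ENNReal.ofReal p) volume := by
        rw [eLpNorm_eq_lintegral_rpow_enorm_toReal hP0 ENNReal.ofReal_ne_top, hPt]
    _ ≤ ∑ k ∈ S, eLpNorm (fun u => ‖δ k u‖) (ENNReal.ofReal p) volume := by
        have e1 : D = ∑ k ∈ S, fun u => ‖δ k u‖ := by
          funext u
          simp [hD]
        rw [e1]
        exact eLpNorm_sum_le (fun k _ => (hδ k).norm.aestronglyMeasurable) hP1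
    _ ≤ ∑ k ∈ S, e := by
        apply Finset.sum_le_sum
        intro k hk
        rw [eLpNorm_norm]
        exact hs k hk
    _ = S.card * e := by rw [Finset.sum_const, nsmul_eq_mul]

theorem al_ne {p : ℝ} (hp : 4 ≤ p) (n : ℕ) (k : ℤ) (i : ℕ) : al p n k i ≠ 0 := by
  intro h
  unfold al at h
  have hp0 : 0 < p := by linarith
  have h1 : 0 < 1 / p := by positivity
  have h2 : 1 / p ≤ 1 / 4 := one_div_le_one_div_of_le (by norm_num) hp
  have h3 : (((2 * (n : ℤ) - 2 * (i : ℤ) - k : ℤ)) : ℝ) = 2 * (1 / p) := by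
    push_cast
    linarith
  have h4 : (0 : ℝ) < (((2 * (n : ℤ) - 2 * (i : ℤ) - k : ℤ)) : ℝ) := by rw [h3]; linarith
  have h5 : (((2 * (n : ℤ) - 2 * (i : ℤ) - k : ℤ)) : ℝ) < 1 := by rw [h3]; linarith
  have h6 : 0 < 2 * (n : ℤ) - 2 * (i : ℤ) - k := by exact_mod_cast h4
  have h7 : 2 * (n : ℤ) - 2 * (i : ℤ) - k < 1 := by exact_mod_cast h5
  omega

theorem core (hMO : P_MO) (hPOL : P_POL) (hGEO : P_GEO) (hEXI : P_EXI)
    (hDEN : ∀ (n : ℕ) (α : ℕ → ℝ), (∀ i, i < n → α i ≠ 0) → ∀ (φ : 𝓢(ℝ, ℂ)) (p ε : ℝ),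
      1 ≤ p → 0 < ε → ∃ ζ : 𝓢(ℝ, ℂ), HasCompactSupport ζ ∧
      eLpNorm (fun u => pol (∏ i ∈ Finset.range n, (Polynomial.X - Polynomial.C (α i))) ζ u - φ u)
        (ENNReal.ofReal p) volume ≤ ENNReal.ofReal ε)
    (hTR : P_TR) (n N : ℕ) (hn : 1 ≤ n) (hN : 2 * n ≤ N) :
    ∃ p₀ : ℝ, 4 ≤ p₀ ∧ ∀ p : ℝ, p₀ ≤ p → ∀ g : ℤ → 𝓢(ℂ, ℂ),
    (∀ (k : ℤ) (z a : ℂ), ‖a‖ = 1 → g k (a * z) = a ^ k * g k z) →
    eLpNorm (Tn n (∑ k ∈ Finset.Icc (-(N : ℤ)) N, g k : 𝓢(ℂ, ℂ))) (ENNReal.ofReal p)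
      (volume : Measure ℂ) ≤
    ENNReal.ofReal (Cn p n) * eLpNorm (∑ k ∈ Finset.Icc (-(N : ℤ)) N, g k : 𝓢(ℂ, ℂ))
      (ENNReal.ofReal p) (volume : Measure ℂ) := by
  obtain ⟨p₀, hp₀, H⟩ := hMO n N hn hN
  refine ⟨p₀, hp₀, fun p hp g hg => ?_⟩
  have hp4 : 4 ≤ p := hp₀.trans hp
  have hp0 : 0 < p := by linarith
  have hP1 : (1 : ℝ≥0∞) ≤ ENNReal.ofReal p := by
    rw [← ENNReal.ofReal_one]
    exact ENNReal.ofReal_le_ofReal (by linarith)
  set S : Finset ℤ := Finset.Icc (-(N : ℤ)) N with hS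
  set f : 𝓢(ℂ, ℂ) := ∑ k ∈ S, g k with hf
  set Kb : ℝ≥0∞ := ENNReal.ofReal (Pool.Agent.TH55.PowA.Cn n * (p - 1)) with hKb
  set B : ℝ≥0∞ := (S.card : ℝ≥0∞) + (ENNReal.ofReal Real.pi) ^ (1 / p) * S.card with hB
  have key : ∀ ε : ℝ, 0 < ε → eLpNorm (Tn n f) (ENNReal.ofReal p) (volume : Measure ℂ) ≤
      ((Kb + ENNReal.ofReal (Cn p n)) * B) * ENNReal.ofReal ε + ENNReal.ofReal (Cn p n) *
        eLpNorm f (ENNReal.ofReal p) (volume : Measure ℂ) := by
    intro ε hε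
    choose φ f₁ hφ hf₁ hf₁' using fun k => hTR k (g k) (hg k) p ε (by linarith) hε
    choose ζ hζ hζ' using fun k : ℤ => hDEN n (al p n k) (fun i _ => al_ne hp4 n k i) (φ k) p ε
      (by linarith) hε
    have hexs : ContDiff ℝ ∞ (fun u : ℝ => ((Real.exp (u * (n / 2 - 1 / p)) : ℝ) : ℂ)) :=
      Complex.ofRealCLM.contDiff.comp (Real.contDiff_exp.comp (contDiff_id.mul contDiff_const))
    choose hk hkc hkv using fun k : ℤ => hEXI (k - n)
      (fun u => ((Real.exp (u * (n / 2 - 1 / p)) : ℝ) : ℂ) * ζ k u)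
      (hexs.mul ((ζ k).smooth ⊤)) ((hζ k).mul_left)
    set h : 𝓢(ℂ, ℂ) := ∑ k ∈ S, hk k with hh0
    have hh : ∀ u t : ℝ, h (ex u t) = Real.exp (u * (n / 2 - 1 / p)) *
        ∑ k ∈ Finset.Icc (-(N : ℤ)) N, Complex.exp (((k : ℝ) - n) * t * Complex.I) * ζ k u := by
      intro u t
      rw [hh0, sum_apply, ← hS, Finset.mul_sum]
      apply Finset.sum_congr rfl
      intro k _
      rw [hkv k u t]
      push_cast
      ring
    have E1 : eLpNorm (f - ∑ k ∈ S, f₁ k : 𝓢(ℂ, ℂ)) (ENNReal.ofReal p) (volume : Measure ℂ) ≤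
        S.card * ENNReal.ofReal ε := by
      have e1 : (⇑(f - ∑ k ∈ S, f₁ k : 𝓢(ℂ, ℂ)) : ℂ → ℂ) =
          ∑ k ∈ S, (⇑(g k - f₁ k : 𝓢(ℂ, ℂ)) : ℂ → ℂ) := by
        rw [hf, ← Finset.sum_sub_distrib]
        funext z
        rw [sum_apply, Finset.sum_apply]
      rw [e1]
      calc _ ≤ ∑ k ∈ S, eLpNorm (⇑(g k - f₁ k : 𝓢(ℂ, ℂ))) (ENNReal.ofReal p)
            (volume : Measure ℂ) :=
            eLpNorm_sum_le (fun k _ => (g k - f₁ k : 𝓢(ℂ, ℂ)).continuous.aestronglyMeasurable) hP1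
        _ ≤ ∑ k ∈ S, ENNReal.ofReal ε := Finset.sum_le_sum fun k _ => hf₁' k
        _ = S.card * ENNReal.ofReal ε := by rw [Finset.sum_const, nsmul_eq_mul]
    have E2 : eLpNorm (∑ k ∈ S, f₁ k - db^[n] h : 𝓢(ℂ, ℂ)) (ENNReal.ofReal p)
        (volume : Measure ℂ) ≤ (ENNReal.ofReal Real.pi) ^ (1 / p) * (S.card * ENNReal.ofReal ε) := by
      refine small hPOL hp4 S _ (fun k => (k : ℝ))
        (fun k u => -(pol (PA p n k) (ζ k) u - φ k u)) (fun k => ?_) _ (fun u t => ?_)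
        (fun k _ => ?_)
      · exact ((pol (PA p n k) (ζ k)).continuous.sub (φ k).continuous).neg
      · have e1 : (∑ k ∈ S, f₁ k - db^[n] h : 𝓢(ℂ, ℂ)) (ex u t) =
            ∑ k ∈ S, f₁ k (ex u t) - (db^[n] h) (ex u t) := by
          rw [sub_apply, sum_apply]
        rw [e1, mul_sub, (hGEO n N p hp0 h ζ hh u t).1, Finset.mul_sum, ← hS, Finset.mul_sum,
          ← Finset.sum_sub_distrib]
        apply Finset.sum_congr rfl
        intro k _
        rw [hf₁ k u t, ← mul_assoc, ← Complex.exp_add]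
        have e2 : (2 * n * t * Complex.I + (((k : ℝ) : ℂ) - 2 * n) * t * Complex.I : ℂ) =
            ((k : ℝ) : ℂ) * t * Complex.I := by ring
        rw [e2]
        push_cast
        ring
      · have e1 : (fun u => -(pol (PA p n k) (ζ k) u - φ k u)) =
            -(fun u => pol (PA p n k) (ζ k) u - φ k u) := rfl
        rw [e1, eLpNorm_neg]
        exact hζ' k
    have E3 : eLpNorm (f - db^[n] h : 𝓢(ℂ, ℂ)) (ENNReal.ofReal p) (volume : Measure ℂ) ≤
        B * ENNReal.ofReal ε := by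
      have e1 : (⇑(f - db^[n] h : 𝓢(ℂ, ℂ)) : ℂ → ℂ) =
          (⇑(f - ∑ k ∈ S, f₁ k : 𝓢(ℂ, ℂ)) : ℂ → ℂ) + ⇑(∑ k ∈ S, f₁ k - db^[n] h : 𝓢(ℂ, ℂ)) := by
        funext z
        simp
      rw [e1]
      refine (eLpNorm_add_le (SchwartzMap.continuous _).aestronglyMeasurable
        (SchwartzMap.continuous _).aestronglyMeasurable hP1).trans ?_
      refine (add_le_add E1 E2).trans (le_of_eq ?_)
      rw [hB, add_mul, mul_assoc]
    have E4 := dd_le hPOL hGEO hp4 n N ζ hζ h hh (H p hp ζ hζ)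
    have E5 : eLpNorm (db^[n] h) (ENNReal.ofReal p) (volume : Measure ℂ) ≤
        eLpNorm f (ENNReal.ofReal p) (volume : Measure ℂ) + B * ENNReal.ofReal ε := by
      have e1 : (⇑(db^[n] h) : ℂ → ℂ) = ⇑f - ⇑(f - db^[n] h : 𝓢(ℂ, ℂ)) := by
        funext z
        simp
      rw [e1]
      refine (eLpNorm_sub_le (SchwartzMap.continuous _).aestronglyMeasurable
        (SchwartzMap.continuous _).aestronglyMeasurable hP1).trans ?_
      gcongr
    have e1 : Tn n f = fun z => Tn n (f - db^[n] h : 𝓢(ℂ, ℂ)) z + (dd^[n] h) z := by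
      have e2 : Tn n f = Tn n ((f - db^[n] h) + db^[n] h : 𝓢(ℂ, ℂ)) := by
        congr 2
        rw [sub_add_cancel]
      rw [e2, Tn_add]
      funext z
      rw [Tn_db]
    have m1 : AEStronglyMeasurable (Tn n (f - db^[n] h : 𝓢(ℂ, ℂ))) (volume : Measure ℂ) := by
      rw [Tn_eq]
      exact (T_cont (adm_sy n) _).aestronglyMeasurable
    rw [e1]
    refine (eLpNorm_add_le m1 (SchwartzMap.continuous _).aestronglyMeasurable hP1).trans ?_
    have E6 : eLpNorm (Tn n (f - db^[n] h : 𝓢(ℂ, ℂ))) (ENNReal.ofReal p) (volume : Measure ℂ) ≤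
        Kb * (B * ENNReal.ofReal ε) := by
      refine le_trans ?_ (mul_le_mul_right E3 Kb)
      rw [Tn_eq]
      exact Pool.Agent.TH55.PowA.main p (by linarith) n hn (f - db^[n] h)
    calc _ ≤ Kb * (B * ENNReal.ofReal ε) + ENNReal.ofReal (Cn p n) *
          (eLpNorm f (ENNReal.ofReal p) (volume : Measure ℂ) + B * ENNReal.ofReal ε) :=
          add_le_add E6 (E4.trans (mul_le_mul_right E5 _))
      _ = _ := by ring
  -- let `ε → 0`
  have hM : (Kb + ENNReal.ofReal (Cn p n)) * B ≠ ⊤ := by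
    refine ENNReal.mul_ne_top (ENNReal.add_ne_top.2 ⟨ENNReal.ofReal_ne_top, ENNReal.ofReal_ne_top⟩)
      (ENNReal.add_ne_top.2 ⟨ENNReal.natCast_ne_top _, ENNReal.mul_ne_top ?_
        (ENNReal.natCast_ne_top _)⟩)
    exact ENNReal.rpow_ne_top_of_nonneg (by positivity) ENNReal.ofReal_ne_top
  have hlim : Tendsto (fun j : ℕ => ((Kb + ENNReal.ofReal (Cn p n)) * B) *
      ENNReal.ofReal (1 / ((j : ℝ) + 1)) + ENNReal.ofReal (Cn p n) *
        eLpNorm f (ENNReal.ofReal p) (volume : Measure ℂ)) atTop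
      (𝓝 (((Kb + ENNReal.ofReal (Cn p n)) * B) * 0 + ENNReal.ofReal (Cn p n) *
        eLpNorm f (ENNReal.ofReal p) (volume : Measure ℂ))) := by
    refine Tendsto.add ?_ tendsto_const_nhds
    refine ENNReal.Tendsto.const_mul ?_ (Or.inr hM)
    have := (ENNReal.continuous_ofReal.tendsto 0).comp
      (tendsto_one_div_add_atTop_nhds_zero_nat (𝕜 := ℝ))
    rw [ENNReal.ofReal_zero] at this
    exact this
  rw [mul_zero, zero_add] at hlim
  exact ge_of_tendsto' hlim fun j => key _ (by positivity)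

end Pool.Agent.W2helper74.BQ.FINA

namespace Pool.Agent.W2helper74.BQ

open Pool.Agent.W2helper3.BQ

theorem p_FINA : P_FINA := by
  intro hMO hPOL hGEO hEXI hSUR hCUT hDEN hTR n N hn
  obtain ⟨p₀, hp₀, H⟩ := FINA.core hMO hPOL hGEO hEXI (hDEN hSUR hCUT) hTR n (N + 2 * n) hn
    (by omega)
  refine ⟨p₀, by linarith, fun p hp g hg => ?_⟩
  set g' : ℤ → 𝓢(ℂ, ℂ) := fun k => if k ∈ Finset.Icc (-(N : ℤ)) N then g k else 0 with hg'
  have e : ∑ k ∈ Finset.Icc (-(((N + 2 * n : ℕ)) : ℤ)) ((N + 2 * n : ℕ) : ℤ), g' k =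
      ∑ k ∈ Finset.Icc (-(N : ℤ)) N, g k := by
    rw [hg', Finset.sum_ite, Finset.sum_const_zero, add_zero]
    congr 1
    ext k
    simp only [Finset.mem_filter, Finset.mem_Icc]
    push_cast
    omega
  have := H p hp g' (fun k z a ha => by
    by_cases hk : k ∈ Finset.Icc (-(N : ℤ)) N
    · simp only [hg', if_pos hk]
      exact hg k z a ha
    · simp only [hg', if_neg hk]
      simp)
  rw [e] at this
  exact this

end Pool.Agent.W2helper74.BQ
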