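import Pool.Agent.W2helper3.BQ.Stm

/-!
# BQ piece GEO: Wirtinger derivatives in logarithmic polar coordinates
-/

set_option autoImplicit false

open MeasureTheory Set Filter Topology
open scoped SchwartzMap ENNReal ContDiff BigOperators

namespace Pool.Agent.W2helper74.BQ

open Pool.Agent.W2helper3.BQ
open Pool.Agent.Y282.RB.A2 (db dd db_apply dd_apply)

/-- a real linear map of `ℂ` in terms of the two Wirtinger coefficients -/
theorem lin_wirt (h : 𝓢(ℂ, ℂ)) (z w : ℂ) :
    fderiv ℝ h z w = dd h z * w + db h z * (starRingEnd ℂ) w := by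
  have h1 : fderiv ℝ h z w = (w.re : ℂ) * fderiv ℝ h z 1 + (w.im : ℂ) * fderiv ℝ h z Complex.I := by
    have e : w = w.re • (1 : ℂ) + w.im • Complex.I := by
      apply Complex.ext <;> simp
    conv_lhs => rw [e]
    rw [map_add, map_smul, map_smul]
    simp
  rw [h1, db_apply, dd_apply]
  have e1 : w = (w.re : ℂ) + w.im * Complex.I := (Complex.re_add_im w).symm
  have e2 : (starRingEnd ℂ) w = (w.re : ℂ) - w.im * Complex.I := by
    apply Complex.ext <;> simp
  rw [e2]
  generalize fderiv ℝ (⇑h) z 1 = A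
  generalize fderiv ℝ (⇑h) z Complex.I = B
  conv_rhs => rw [e1]
  simp only [Complex.add_re, Complex.ofReal_re, Complex.mul_re, Complex.I_re, mul_zero,
    Complex.ofReal_im, Complex.I_im, mul_one, sub_self, add_zero, Complex.add_im, Complex.mul_im,
    zero_add]
  linear_combination ((w.im : ℂ) * B) * Complex.I_sq

theorem ex_u (u t : ℝ) : HasDerivAt (fun u => ex u t) (ex u t / 2) u := by
  have h1 : HasDerivAt (fun u : ℝ => ((u / 2 : ℝ) : ℂ) + t * Complex.I) ((1 / 2 : ℝ) : ℂ) u := by
    have := ((hasDerivAt_id u).div_const 2).ofReal_comp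
    exact this.add_const _
  have h2 := h1.cexp
  refine h2.congr_deriv ?_
  rw [ex]
  push_cast
  ring

theorem ex_t (u t : ℝ) : HasDerivAt (fun t => ex u t) (Complex.I * ex u t) t := by
  have h1 : HasDerivAt (fun t : ℝ => ((u / 2 : ℝ) : ℂ) + t * Complex.I) ((1 : ℂ) * Complex.I) t := by
    have := ((hasDerivAt_id t).ofReal_comp).mul_const Complex.I
    have h3 := this.const_add ((u / 2 : ℝ) : ℂ)
    simpa using h3
  have h2 := h1.cexp
  refine h2.congr_deriv ?_
  rw [ex]
  ring

theorem ex_conj (u t : ℝ) : (starRingEnd ℂ) (ex u t) =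
    Real.exp (u / 2) * Complex.exp (-(t * Complex.I)) := by
  rw [ex, ← Complex.exp_conj, map_add, map_mul, Complex.conj_ofReal, Complex.conj_ofReal,
    Complex.conj_I, Complex.exp_add, Complex.ofReal_exp]
  congr 2
  ring

theorem ex_eq (u t : ℝ) : ex u t = Real.exp (u / 2) * Complex.exp (t * Complex.I) := by
  rw [ex, Complex.exp_add, Complex.ofReal_exp]

theorem step (h : 𝓢(ℂ, ℂ)) (S : Finset ℤ) (s : ℝ) (m : ℤ → ℝ) (w : ℤ → 𝓢(ℝ, ℂ))
    (hh : ∀ u t : ℝ, h (ex u t) = Real.exp (u * s) * ∑ k ∈ S,
      Complex.exp (m k * t * Complex.I) * w k u) (u t : ℝ) :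
    db h (ex u t) = Real.exp (u * (s - 1 / 2)) * ∑ k ∈ S,
      Complex.exp ((m k + 1) * t * Complex.I) * (DD (w k) + (s - m k / 2) • w k) u ∧
    dd h (ex u t) = Real.exp (u * (s - 1 / 2)) * ∑ k ∈ S,
      Complex.exp ((m k - 1) * t * Complex.I) * (DD (w k) + (s + m k / 2) • w k) u := by
  have hd : DifferentiableAt ℝ h (ex u t) := h.differentiableAt
  -- derivative in `u`
  have a1 : HasDerivAt (fun u => h (ex u t)) (fderiv ℝ h (ex u t) (ex u t / 2)) u :=
    hd.hasFDerivAt.comp_hasDerivAt u (ex_u u t)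
  have a2 : HasDerivAt (fun t => h (ex u t)) (fderiv ℝ h (ex u t) (Complex.I * ex u t)) t :=
    hd.hasFDerivAt.comp_hasDerivAt t (ex_t u t)
  have hw : ∀ k, HasDerivAt (w k) (DD (w k) u) u := fun k =>
    (w k).differentiableAt.hasDerivAt
  have b1 : HasDerivAt (fun u => h (ex u t))
      (Real.exp (u * s) * ∑ k ∈ S, Complex.exp (m k * t * Complex.I) *
        (DD (w k) u + s * w k u)) u := by
    have e : (fun u => h (ex u t)) = fun u => (Real.exp (u * s) : ℂ) * ∑ k ∈ S,
      Complex.exp (m k * t * Complex.I) * w k u := funext fun u => hh u t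
    rw [e]
    have c1 : HasDerivAt (fun u : ℝ => ((Real.exp (u * s) : ℝ) : ℂ))
        ((Real.exp (u * s) * s : ℝ) : ℂ) u := by
      have := ((hasDerivAt_id u).mul_const s).exp.ofReal_comp
      simpa using this
    have c2 : HasDerivAt (fun u : ℝ => ∑ k ∈ S, Complex.exp (m k * t * Complex.I) * w k u)
        (∑ k ∈ S, Complex.exp (m k * t * Complex.I) * DD (w k) u) u :=
      HasDerivAt.fun_sum fun k _ => (hw k).const_mul _
    refine (c1.mul c2).congr_deriv ?_
    rw [Complex.ofReal_mul, mul_assoc, ← mul_add, Finset.mul_sum, ← Finset.sum_add_distrib]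
    congr 1
    apply Finset.sum_congr rfl
    intro k _
    ring
  have b2 : HasDerivAt (fun t => h (ex u t))
      (Real.exp (u * s) * ∑ k ∈ S, Complex.exp (m k * t * Complex.I) *
        (m k * Complex.I * w k u)) t := by
    have e : (fun t => h (ex u t)) = fun t : ℝ => (Real.exp (u * s) : ℂ) * ∑ k ∈ S,
      Complex.exp (m k * t * Complex.I) * w k u := funext fun t => hh u t
    rw [e]
    have c1 : ∀ k, HasDerivAt (fun t : ℝ => Complex.exp (m k * t * Complex.I))
        (Complex.exp (m k * t * Complex.I) * (m k * Complex.I)) t := by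
      intro k
      have := (((hasDerivAt_id t).ofReal_comp.const_mul (m k : ℂ)).mul_const Complex.I).cexp
      simpa using this
    have c2 : HasDerivAt (fun t : ℝ => ∑ k ∈ S, Complex.exp (m k * t * Complex.I) * w k u)
        (∑ k ∈ S, Complex.exp (m k * t * Complex.I) * (m k * Complex.I) * w k u) t :=
      HasDerivAt.fun_sum fun k _ => (c1 k).mul_const _
    refine (c2.const_mul _).congr_deriv ?_
    congr 1
    apply Finset.sum_congr rfl
    intro k _
    ring
  have e1 := a1.unique b1
  have e2 := a2.unique b2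
  rw [lin_wirt] at e1 e2
  have hz := ex_eq u t
  have hzc := ex_conj u t
  have cj1 : (starRingEnd ℂ) (ex u t / 2) = (starRingEnd ℂ) (ex u t) / 2 := by
    rw [map_div₀, map_ofNat]
  have cj2 : (starRingEnd ℂ) (Complex.I * ex u t) = -Complex.I * (starRingEnd ℂ) (ex u t) := by
    rw [map_mul, Complex.conj_I]
  rw [cj1] at e1
  rw [cj2] at e2
  -- the two basic identities
  have f1 : db h (ex u t) * (starRingEnd ℂ) (ex u t) = Real.exp (u * s) * ∑ k ∈ S,
      Complex.exp (m k * t * Complex.I) * (DD (w k) u + (s - m k / 2) * w k u) := by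
    have : db h (ex u t) * (starRingEnd ℂ) (ex u t) =
        Real.exp (u * s) * ∑ k ∈ S, Complex.exp (m k * t * Complex.I) *
        (DD (w k) u + s * w k u) + Complex.I / 2 * (Real.exp (u * s) * ∑ k ∈ S,
          Complex.exp (m k * t * Complex.I) * (m k * Complex.I * w k u)) := by
      linear_combination e1 + Complex.I / 2 * e2 - (1 / 2 * dd h (ex u t) * ex u t -
        1 / 2 * db h (ex u t) * (starRingEnd ℂ) (ex u t)) * Complex.I_sq
    rw [this, mul_left_comm, ← mul_add, Finset.mul_sum, ← Finset.sum_add_distrib]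
    congr 1
    apply Finset.sum_congr rfl
    intro k _
    linear_combination (1 / 2 * Complex.exp (m k * t * Complex.I) * m k * w k u) * Complex.I_sq
  have f2 : dd h (ex u t) * ex u t = Real.exp (u * s) * ∑ k ∈ S,
      Complex.exp (m k * t * Complex.I) * (DD (w k) u + (s + m k / 2) * w k u) := by
    have : dd h (ex u t) * ex u t =
        Real.exp (u * s) * ∑ k ∈ S, Complex.exp (m k * t * Complex.I) *
        (DD (w k) u + s * w k u) - Complex.I / 2 * (Real.exp (u * s) * ∑ k ∈ S,
          Complex.exp (m k * t * Complex.I) * (m k * Complex.I * w k u)) := by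
      linear_combination e1 - Complex.I / 2 * e2 + (1 / 2 * dd h (ex u t) * ex u t -
        1 / 2 * db h (ex u t) * (starRingEnd ℂ) (ex u t)) * Complex.I_sq
    rw [this, mul_left_comm, ← mul_sub, Finset.mul_sum, ← Finset.sum_sub_distrib]
    congr 1
    apply Finset.sum_congr rfl
    intro k _
    linear_combination (-1 / 2 * Complex.exp (m k * t * Complex.I) * m k * w k u) * Complex.I_sq
  have hz0 : ex u t ≠ 0 := Complex.exp_ne_zero _
  have hzc0 : (starRingEnd ℂ) (ex u t) ≠ 0 := (map_ne_zero _).2 hz0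
  have e3 : (Real.exp (u * s) : ℂ) = Real.exp (u * (s - 1 / 2)) * Real.exp (u / 2) := by
    rw [← Complex.ofReal_mul, ← Real.exp_add]; congr 2; ring
  constructor
  · apply mul_right_cancel₀ hzc0
    rw [f1, hzc, e3]
    have e4 : ∑ k ∈ S, Complex.exp (m k * t * Complex.I) * (DD (w k) u + (s - m k / 2) * w k u) =
        (∑ k ∈ S, Complex.exp ((m k + 1) * t * Complex.I) * (DD (w k) + (s - m k / 2) • w k) u) *
          Complex.exp (-(t * Complex.I)) := by
      rw [Finset.sum_mul]
      apply Finset.sum_congr rfl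
      intro k _
      have e5 : Complex.exp (m k * t * Complex.I) =
          Complex.exp ((m k + 1) * t * Complex.I) * Complex.exp (-(t * Complex.I)) := by
        rw [← Complex.exp_add]; congr 1; ring
      have e6 : (DD (w k) + (s - m k / 2) • w k) u = DD (w k) u + (s - m k / 2) * w k u := by
        simp
      rw [e5, e6]
      ring
    rw [e4]
    ring
  · apply mul_right_cancel₀ hz0
    rw [f2, hz, e3]
    have e4 : ∑ k ∈ S, Complex.exp (m k * t * Complex.I) * (DD (w k) u + (s + m k / 2) * w k u) =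
        (∑ k ∈ S, Complex.exp ((m k - 1) * t * Complex.I) * (DD (w k) + (s + m k / 2) • w k) u) *
          Complex.exp (t * Complex.I) := by
      rw [Finset.sum_mul]
      apply Finset.sum_congr rfl
      intro k _
      have e5 : Complex.exp (m k * t * Complex.I) =
          Complex.exp ((m k - 1) * t * Complex.I) * Complex.exp (t * Complex.I) := by
        rw [← Complex.exp_add]; congr 1; ring
      have e6 : (DD (w k) + (s + m k / 2) • w k) u = DD (w k) u + (s + m k / 2) * w k u := by
        simp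
      rw [e5, e6]
      ring
    rw [e4]
    ring

/-- partial products -/
noncomputable def PP (a : ℕ → ℝ) (j : ℕ) : Polynomial ℝ :=
  ∏ i ∈ Finset.range j, (Polynomial.X - Polynomial.C (a i))

theorem PP_succ (a : ℕ → ℝ) (j : ℕ) (ζ : 𝓢(ℝ, ℂ)) :
    pol (PP a (j + 1)) ζ = DD (pol (PP a j) ζ) + (-a j) • pol (PP a j) ζ := by
  unfold pol PP
  rw [Finset.prod_range_succ, mul_comm, map_mul, Module.End.mul_apply, map_sub,
    Polynomial.aeval_X, Polynomial.aeval_C, LinearMap.sub_apply, neg_smul, sub_eq_add_neg]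
  rfl

theorem geo_db (n N : ℕ) (p : ℝ) (h : 𝓢(ℂ, ℂ)) (ζ : ℤ → 𝓢(ℝ, ℂ))
    (hh : ∀ u t : ℝ, h (ex u t) = Real.exp (u * (n / 2 - 1 / p)) *
      ∑ k ∈ Finset.Icc (-(N : ℤ)) N, Complex.exp (((k : ℝ) - n) * t * Complex.I) * ζ k u)
    (j : ℕ) : ∀ u t : ℝ, (db^[j] h) (ex u t) = Real.exp (u * ((n - j) / 2 - 1 / p)) *
      ∑ k ∈ Finset.Icc (-(N : ℤ)) N,
        Complex.exp ((((k : ℝ) - n + j : ℝ) : ℂ) * t * Complex.I) * pol (PP (al p n k) j) (ζ k) u := by
  induction j with
  | zero =>
    intro u t
    simp only [Function.iterate_zero, id_eq, hh, PP, Finset.range_zero, Finset.prod_empty, pol,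
      map_one, Module.End.one_apply, Nat.cast_zero, sub_zero, add_zero]
    push_cast
    rfl
  | succ j ih =>
    intro u t
    rw [Function.iterate_succ_apply']
    have := (step _ _ _ _ _ ih u t).1
    rw [this]
    congr 1
    · congr 2
      push_cast
      ring
    · apply Finset.sum_congr rfl
      intro k _
      rw [PP_succ]
      congr 2
      · congr 1; push_cast; ring
      · congr 2
        unfold al
        push_cast
        ring

theorem geo_dd (n N : ℕ) (p : ℝ) (h : 𝓢(ℂ, ℂ)) (ζ : ℤ → 𝓢(ℝ, ℂ))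
    (hh : ∀ u t : ℝ, h (ex u t) = Real.exp (u * (n / 2 - 1 / p)) *
      ∑ k ∈ Finset.Icc (-(N : ℤ)) N, Complex.exp (((k : ℝ) - n) * t * Complex.I) * ζ k u)
    (j : ℕ) : ∀ u t : ℝ, (dd^[j] h) (ex u t) = Real.exp (u * ((n - j) / 2 - 1 / p)) *
      ∑ k ∈ Finset.Icc (-(N : ℤ)) N,
        Complex.exp ((((k : ℝ) - n - j : ℝ) : ℂ) * t * Complex.I) * pol (PP (be p n k) j) (ζ k) u := by
  induction j with
  | zero =>
    intro u t
    simp only [Function.iterate_zero, id_eq, hh, PP, Finset.range_zero, Finset.prod_empty, pol,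
      map_one, Module.End.one_apply, Nat.cast_zero, sub_zero]
    push_cast
    rfl
  | succ j ih =>
    intro u t
    rw [Function.iterate_succ_apply']
    have := (step _ _ _ _ _ ih u t).2
    rw [this]
    congr 1
    · congr 2
      push_cast
      ring
    · apply Finset.sum_congr rfl
      intro k _
      rw [PP_succ]
      congr 2
      · congr 1; push_cast; ring
      · congr 2
        unfold be
        push_cast
        ring

theorem p_GEO : P_GEO := by
  intro n N p hp h ζ hh u t
  constructor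
  · rw [geo_db n N p h ζ hh n u t, ← mul_assoc, ← Complex.ofReal_mul, ← Real.exp_add]
    have e : u / p + u * (((n : ℝ) - n) / 2 - 1 / p) = 0 := by ring
    rw [e, Real.exp_zero, Complex.ofReal_one, one_mul, Finset.mul_sum]
    apply Finset.sum_congr rfl
    intro k _
    rw [← mul_assoc, ← Complex.exp_add]
    congr 2
    push_cast
    ring
  · rw [geo_dd n N p h ζ hh n u t, ← mul_assoc, ← Complex.ofReal_mul, ← Real.exp_add]
    have e : u / p + u * (((n : ℝ) - n) / 2 - 1 / p) = 0 := by ring
    rw [e, Real.exp_zero, Complex.ofReal_one, one_mul]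
    apply Finset.sum_congr rfl
    intro k _
    congr 2
    push_cast
    ring

end Pool.Agent.W2helper74.BQ
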